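import Pool.Agent.Helper52.UF9

/-!
The largest admissible subsets of `{1, …, N}` have `(1 + o(1)) N` elements.
-/

open Filter Topology

namespace Pool.Agent.Results.MP_47c171_nt.Asymptotic

/-- `A ⊆ {1, …, N}` is admissible when, for one assignment of signs `δ n = ±1` to its elements, the signed
reciprocals of all of `A` sum to zero and those of no nonempty proper subset of `A` do. -/
def Admissible (N : ℕ) (A : Finset ℕ) : Prop :=
  A ⊆ Finset.Icc 1 N ∧ ∃ δ : ℕ → ℤ, (∀ n ∈ A, δ n = 1 ∨ δ n = -1) ∧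
    (∑ n ∈ A, (δ n : ℚ) / (n : ℚ) = 0) ∧
    ∀ A' : Finset ℕ, A' ⊂ A → A'.Nonempty → ∑ n ∈ A', (δ n : ℚ) / (n : ℚ) ≠ 0

/-- `c N` is the maximum cardinality of an admissible subset of `{1, …, N}`. -/
noncomputable def c (N : ℕ) : ℕ := sSup {m : ℕ | ∃ A : Finset ℕ, Admissible N A ∧ A.card = m}

theorem card_le_of_admissible {N : ℕ} {A : Finset ℕ} (h : Admissible N A) : A.card ≤ N := by
  have := Finset.card_le_card h.1
  simpa using this

theorem bddAbove (N : ℕ) : BddAbove {m : ℕ | ∃ A : Finset ℕ, Admissible N A ∧ A.card = m} := by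
  refine ⟨N, ?_⟩
  rintro m ⟨A, hA, rfl⟩
  exact card_le_of_admissible hA

theorem admissible_empty (N : ℕ) : Admissible N ∅ := by
  refine ⟨Finset.empty_subset _, fun _ => 1, by simp, by simp, ?_⟩
  intro A' hA' hne
  exact absurd (Finset.subset_empty.mp hA'.1) (Finset.nonempty_iff_ne_empty.mp hne)

/-- The maximum is attained, so `c N` really is a maximum. -/
theorem c_mem (N : ℕ) : ∃ A : Finset ℕ, Admissible N A ∧ A.card = c N := by
  have hne : {m : ℕ | ∃ A : Finset ℕ, Admissible N A ∧ A.card = m}.Nonempty :=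
    ⟨0, ∅, admissible_empty N, rfl⟩
  exact Nat.sSup_mem hne (bddAbove N)

theorem c_le (N : ℕ) : c N ≤ N := by
  obtain ⟨A, hA, hc⟩ := c_mem N
  rw [← hc]
  exact card_le_of_admissible hA

theorem le_c {N : ℕ} {A : Finset ℕ} (hA : Admissible N A) : A.card ≤ c N :=
  le_csSup (bddAbove N) ⟨A, hA, rfl⟩

/-- `c N` is asymptotic to `N`. -/
theorem result : Tendsto (fun N : ℕ => (c N : ℝ) / (N : ℝ)) atTop (𝓝 1) := by
  rw [Metric.tendsto_atTop]
  intro ε hε
  obtain ⟨N0, hN0⟩ := Helper52.dense_admissible (half_pos hε)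
  refine ⟨max N0 1, ?_⟩
  intro N hN
  have hN1 : 1 ≤ N := (le_max_right _ _).trans hN
  have hNr : (0:ℝ) < N := by exact_mod_cast hN1
  obtain ⟨A, δ, h1, h2, h3, h4, h5⟩ := hN0 N ((le_max_left _ _).trans hN)
  have hA : Admissible N A := ⟨h1, δ, h2, h3, h4⟩
  have h6 : (A.card : ℝ) ≤ (c N : ℝ) := by exact_mod_cast le_c hA
  have h7 : (c N : ℝ) ≤ N := by exact_mod_cast c_le N
  have h8 : (c N : ℝ) / N ≤ 1 := by rw [div_le_one hNr]; exact h7
  have h9 : 1 - ε / 2 ≤ (c N : ℝ) / N := by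
    rw [le_div_iff₀ hNr]; linarith
  rw [Real.dist_eq, abs_lt]
  constructor <;> linarith

end Pool.Agent.Results.MP_47c171_nt.Asymptotic
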